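import Pool.Agent.Helper49.NF.Goals

/-!
# NF, packet N2S (numerical)
-/

set_option autoImplicit false

namespace Pool.Agent.Helper38.NF

open Pool.Agent.Helper49.NF

theorem goal_N2S (hN2X : Goal_N2X) : Goal_N2S := by
  obtain ⟨n₀, h0⟩ := hN2X
  refine ⟨max n₀ 1, ?_⟩
  intro n hn m K f hnm hmn hK hKn hf
  have hn0 : n₀ ≤ n := le_trans (le_max_left _ _) hn
  have hn1 : 1 ≤ n := le_trans (le_max_right _ _) hn
  obtain ⟨h3, t, ht1, ht2⟩ := h0 n hn0 m K f (8 * Lg n) hnm hK hKn hf le_rfl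
  obtain ⟨l, hl⟩ : ∃ l, Lg n = l := ⟨_, rfl⟩
  rw [hl] at h3 ht1 ht2 ⊢
  have hl1 : 1 ≤ l := by omega
  have hnl : n ≤ 2 ^ l := by
    rw [← hl]
    exact Nat.le_pow_clog (by norm_num) n
  have hKn1 : 1 ≤ K * n := Nat.mul_pos hK hn1
  -- K n ≤ 2 ^ t
  have hKt : K * n ≤ 2 ^ t := by
    refine le_trans ?_ ht1
    have e1 : K * n ≤ (K * n) ^ (8 * l + 1) := Nat.le_self_pow (by omega) _
    have e2 : (K * n) ^ (8 * l + 1) ≤ 4 ^ f * (K * n) ^ (8 * l + 1) :=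
      Nat.le_mul_of_pos_left _ (by positivity)
    have e3 : 4 ^ f * (K * n) ^ (8 * l + 1) ≤ 4 ^ f * (K * n) ^ (8 * l + 1) * (n + 1) ^ 2 :=
      Nat.le_mul_of_pos_right _ (by positivity)
    have e4 : 4 ^ f * (K * n) ^ (8 * l + 1) * (n + 1) ^ 2 ≤
        128 * (n + 1) * (4 ^ f * (K * n) ^ (8 * l + 1) * (n + 1) ^ 2) :=
      Nat.le_mul_of_pos_left _ (by positivity)
    exact e1.trans (e2.trans (e3.trans e4))
  -- the binomial coefficient
  have hch : (n / (8 * l)).choose (m / (8 * l)) ≤ 2 ^ (m / 8) := by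
    have e1 : (n / (8 * l)).choose (m / (8 * l)) ≤ (n / (8 * l)) ^ (m / (8 * l)) :=
      Nat.choose_le_pow _ _
    have e2 : (n / (8 * l)) ^ (m / (8 * l)) ≤ (2 ^ l) ^ (m / (8 * l)) :=
      Nat.pow_le_pow_left ((Nat.div_le_self _ _).trans hnl) _
    have e3 : (2 ^ l) ^ (m / (8 * l)) = 2 ^ (l * (m / (8 * l))) := by rw [pow_mul]
    have e4 : l * (m / (8 * l)) ≤ m / 8 := by
      rw [Nat.le_div_iff_mul_le (by norm_num)]
      calc l * (m / (8 * l)) * 8 = 8 * l * (m / (8 * l)) := by ring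
        _ ≤ m := Nat.mul_div_le _ _
    exact e1.trans (e2.trans (e3.le.trans (Nat.pow_le_pow_right (by norm_num) e4)))
  have hexp : t + (t + m / 8) ≤ m + 1 := by
    have e1 : 3 * (t + 2) ≤ 8 * l * (t + 2) := Nat.mul_le_mul_right _ h3
    omega
  unfold Bb
  calc K * n * (128 * (n + 1) * (4 ^ f * (K * n) ^ (8 * l + 1) * (n + 1) ^ 2 *
        (n / (8 * l)).choose (m / (8 * l))))
      = K * n * (128 * (n + 1) * (4 ^ f * (K * n) ^ (8 * l + 1) * (n + 1) ^ 2) *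
        (n / (8 * l)).choose (m / (8 * l))) := by ring
    _ ≤ 2 ^ t * (2 ^ t * 2 ^ (m / 8)) :=
        Nat.mul_le_mul hKt (Nat.mul_le_mul ht1 hch)
    _ = 2 ^ (t + (t + m / 8)) := by rw [pow_add, pow_add]
    _ ≤ 2 ^ (m + 1) := Nat.pow_le_pow_right (by norm_num) hexp

end Pool.Agent.Helper38.NF
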